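import Pool.Agent.Helper14_DK.Stmts

/-!
# AVG: derivatives of an average are averages of the derivatives
-/

set_option autoImplicit false

namespace Pool.Agent.DK.H92

open MeasureTheory Complex Set Metric Filter Pool.Agent.DK
open scoped ContDiff Topology Convolution

variable {n : ℕ}

theorem conv_eq_avg (F : E n → ℂ) (φ : E n → ℝ) (z : E n) :
    conv F (cx φ) z = ∫ w, φ w • F (z - w) := by
  unfold conv cx
  rw [← integral_sub_left_eq_self (fun w => F w * (φ (z - w) : ℂ)) volume z]
  congr 1
  funext w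
  simp [mul_comm]

theorem hasFDerivAt_avg {V : Type} [NormedAddCommGroup V] [NormedSpace ℝ V] {f : E n → V}
    {φ : E n → ℝ} (hf : ContDiff ℝ 1 f) (hc : HasCompactSupport f) (hφ : Continuous φ)
    (x : E n) :
    HasFDerivAt (fun z => ∫ w, φ w • f (z - w)) (∫ w, φ w • fderiv ℝ f (x - w)) x := by
  have h := hc.hasFDerivAt_convolution_right (ContinuousLinearMap.lsmul ℝ ℝ) (μ := volume)
    (f := φ) hφ.locallyIntegrable hf x
  have e : ((φ ⋆[(ContinuousLinearMap.lsmul ℝ ℝ : ℝ →L[ℝ] V →L[ℝ] V).precompR (E n), volume]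
      fderiv ℝ f) x) = ∫ w, φ w • fderiv ℝ f (x - w) := by
    unfold convolution
    congr 1
  rw [← e]
  exact h

theorem iter_avg {F : E n → ℂ} {φ : E n → ℝ} (hφ : Continuous φ) {m : ℕ}
    (hF : ContDiff ℝ m F) (hc : HasCompactSupport F) (j : ℕ) (hj : j ≤ m) (x : E n) :
    iteratedFDeriv ℝ j (fun z => ∫ w, φ w • F (z - w)) x =
      ∫ w, φ w • iteratedFDeriv ℝ j F (x - w) := by
  induction j generalizing x with
  | zero =>
    simp only [iteratedFDeriv_zero_eq_comp, Function.comp]
    have := (continuousMultilinearCurryFin0 ℝ (E n) ℂ).symm.toContinuousLinearEquiv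
      |>.integral_comp_comm (μ := volume) (fun w => φ w • F (x - w))
    simp only [LinearIsometryEquiv.coe_toContinuousLinearEquiv, map_smul] at this
    exact this.symm
  | succ j ih =>
    have h1 : iteratedFDeriv ℝ j (fun z => ∫ w, φ w • F (z - w)) =
        fun x => ∫ w, φ w • iteratedFDeriv ℝ j F (x - w) :=
      funext fun x => ih (by omega) x
    have h2 : ContDiff ℝ 1 (iteratedFDeriv ℝ j F) :=
      hF.iteratedFDeriv_right (m := 1) (by norm_cast; omega)
    have h3 := hasFDerivAt_avg h2 (hc.iteratedFDeriv j) hφ x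
    rw [iteratedFDeriv_succ_eq_comp_left, iteratedFDeriv_succ_eq_comp_left]
    simp only [Function.comp]
    rw [h1, h3.fderiv]
    have := ContinuousLinearEquiv.integral_comp_comm (𝕜 := ℝ) (μ := volume)
      (E := E n →L[ℝ] E n [×j]→L[ℝ] ℂ) (F := E n [×(j+1)]→L[ℝ] ℂ)
      ((continuousMultilinearCurryLeftEquiv ℝ (fun _ : Fin (j + 1) => E n)
        ℂ).symm.toContinuousLinearEquiv)
      (fun w => φ w • fderiv ℝ (iteratedFDeriv ℝ j F) (x - w))
    simp only [LinearIsometryEquiv.coe_toContinuousLinearEquiv, map_smul] at this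
    exact this.symm

/-- AVG -/
theorem avg : AvgStmt := by
  intro n m F hF hc φ δ hδ hφ hφ0 hφ1 hφδ j hj x A η hA
  have e : conv F (cx φ) = fun z => ∫ w, φ w • F (z - w) := funext fun z => conv_eq_avg F φ z
  rw [e, iter_avg hφ.continuous hF hc j hj x]
  have hφc : HasCompactSupport φ := by
    refine HasCompactSupport.intro' (K := closedBall 0 δ) (isCompact_closedBall _ _)
      isClosed_closedBall fun y hy => hφδ y ?_
    simp only [mem_closedBall, dist_zero_right, not_le] at hy
    exact hy.le
  have hφi : Integrable φ := hφ.continuous.integrable_of_hasCompactSupport hφc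
  have hG : Continuous (iteratedFDeriv ℝ j F) := hF.continuous_iteratedFDeriv
    (by exact_mod_cast hj)
  have hi1 : Integrable (fun w => φ w • iteratedFDeriv ℝ j F (x - w)) := by
    refine Continuous.integrable_of_hasCompactSupport ?_ ?_
    · exact hφ.continuous.smul (hG.comp (continuous_const.sub continuous_id))
    · exact hφc.smul_right
  have hi2 : Integrable (fun w => φ w • A) := hφi.smul_const A
  have hA' : A = ∫ w, φ w • A := by rw [integral_smul_const, hφ1, one_smul]
  rw [show (∫ w, φ w • iteratedFDeriv ℝ j F (x - w)) - A =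
    ∫ w, (φ w • iteratedFDeriv ℝ j F (x - w) - φ w • A) by
      rw [integral_sub hi1 hi2, ← hA']]
  have hη : η = ∫ w, φ w * η := by rw [integral_mul_const, hφ1, one_mul]
  rw [hη]
  refine norm_integral_le_of_norm_le (hφi.mul_const η) (Eventually.of_forall fun w => ?_)
  rw [← smul_sub, norm_smul, Real.norm_of_nonneg (hφ0 w)]
  by_cases hw : δ ≤ ‖w‖
  · rw [hφδ w hw]; simp
  · refine mul_le_mul_of_nonneg_left (hA _ ?_) (hφ0 w)
    rw [mem_ball, dist_eq_norm]
    simpa using hw

end Pool.Agent.DK.H92
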