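import Pool.Agent.Helper14_DK.Stmts

/-!
# GLUE: gluing local weak solutions of the dbar equation
-/

set_option autoImplicit false

namespace Pool.Agent.DK.H92

open MeasureTheory Complex Set Metric Filter Pool.Agent.DK
open scoped ContDiff Topology

variable {n : ℕ}

theorem isTest_cut {D W : Set (E n)} {χ : E n → ℝ} {ψ : E n → ℂ} (hχ : ContDiff ℝ ∞ χ)
    (hW : tsupport χ ∩ D ⊆ W) (hψ : IsTest D ψ) : IsTest W (fun z => cx χ z * ψ z) := by
  refine ⟨(contDiff_cx hχ).mul hψ.sm, ?_, ?_⟩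
  · exact HasCompactSupport.intro' (K := tsupport ψ) hψ.cpt (isClosed_tsupport _) fun z hz => by
      rw [image_eq_zero_of_notMem_tsupport hz, mul_zero]
  · intro z hz
    refine hW ⟨?_, hψ.sub (IsTest.tsupport_mul_sub (cx χ) ψ hz)⟩
    refine closure_mono (fun y hy => ?_) hz
    intro h0
    apply hy
    simp [cx, h0]

theorem isTest_smooth_mul {D : Set (E n)} {f ψ : E n → ℂ} (hf : ContDiff ℝ ∞ f)
    (hψ : IsTest D ψ) : IsTest D (fun z => f z * ψ z) := by
  refine ⟨hf.mul hψ.sm, ?_, (IsTest.tsupport_mul_sub f ψ).trans hψ.sub⟩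
  exact HasCompactSupport.intro' (K := tsupport ψ) hψ.cpt (isClosed_tsupport _) fun z hz => by
      rw [image_eq_zero_of_notMem_tsupport hz, mul_zero]

theorem glue_first {D : Set (E n)} {N : ℕ} {W : Fin N → Set (E n)}
    {χ : Fin N → E n → ℝ} {u : Fin N → E n → ℂ} {α : Fin n → E n → ℂ}
    (hχ : ∀ i, ContDiff ℝ ∞ (χ i))
    (hW : ∀ i, tsupport (χ i) ∩ D ⊆ W i) (hsum : ∀ z ∈ D, ∑ i, χ i z = 1)
    (hu : ∀ i, MemLp (u i) 2 volume) (hα : ∀ j, MemLp (α j) 2 volume)
    (hdb : ∀ i, WDb (W i) (u i) α) :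
    WDb D (fun z => ∑ i, (χ i z : ℂ) * u i z)
      (fun j z => α j z + ∑ i, u i z * dbar j (cx (χ i)) z) := by
  intro j ψ hψ
  have hcut : ∀ i, IsTest (W i) (fun z => cx (χ i) z * ψ z) := fun i =>
    isTest_cut (hχ i) (hW i) hψ
  have hsm : ∀ i, IsTest D (fun z => dbar j (cx (χ i)) z * ψ z) := fun i =>
    isTest_smooth_mul (contDiff_dbar (contDiff_cx (hχ i))) hψ
  have hcd : ∀ i, IsTest D (fun z => cx (χ i) z * ψ z) := fun i =>
    isTest_smooth_mul (contDiff_cx (hχ i)) hψ
  have i1 : ∀ i, Integrable (fun z => u i z * dbar j (fun y => cx (χ i) y * ψ y) z) :=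
    fun i => integrable_mul_test' (hu i) ((hcut i).dbar j)
  have i2 : ∀ i, Integrable (fun z => u i z * (dbar j (cx (χ i)) z * ψ z)) :=
    fun i => integrable_mul_test' (hu i) (hsm i)
  have i3 : ∀ i, Integrable (fun z => α j z * (cx (χ i) z * ψ z)) :=
    fun i => integrable_mul_test' (hα j) (hcd i)
  have e1 : ∀ z, (∑ i, (χ i z : ℂ) * u i z) * dbar j ψ z =
      ∑ i, (u i z * dbar j (fun y => cx (χ i) y * ψ y) z -
        u i z * (dbar j (cx (χ i)) z * ψ z)) := by
    intro z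
    rw [Finset.sum_mul]
    refine Finset.sum_congr rfl fun i _ => ?_
    rw [dbar_mul ((contDiff_cx (hχ i)).contDiffAt.differentiableAt (by simp))
      (hψ.differentiable z)]
    simp only [cx]
    ring
  have e2 : ∀ i, ∫ z, u i z * dbar j (fun y => cx (χ i) y * ψ y) z =
      - ∫ z, α j z * (cx (χ i) z * ψ z) := fun i => hdb i j _ (hcut i)
  have e3 : ∀ z, (α j z + ∑ i, u i z * dbar j (cx (χ i)) z) * ψ z =
      ∑ i, (α j z * (cx (χ i) z * ψ z) + u i z * (dbar j (cx (χ i)) z * ψ z)) := by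
    intro z
    rw [Finset.sum_add_distrib, add_mul, Finset.sum_mul]
    congr 1
    · by_cases hz : z ∈ D
      · have h1 : ∑ i, cx (χ i) z = 1 := by
          have := hsum z hz
          simp only [cx]
          exact_mod_cast this
        rw [← Finset.mul_sum, ← Finset.sum_mul, h1, one_mul]
      · simp [hψ.zero_of_notMem hz]
    · refine Finset.sum_congr rfl fun i _ => ?_
      ring
  have i4 : ∀ i, Integrable (fun z => u i z * dbar j (fun y => cx (χ i) y * ψ y) z -
      u i z * (dbar j (cx (χ i)) z * ψ z)) := fun i => (i1 i).sub (i2 i)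
  have i5 : ∀ i, Integrable (fun z => α j z * (cx (χ i) z * ψ z) +
      u i z * (dbar j (cx (χ i)) z * ψ z)) := fun i => (i3 i).add (i2 i)
  simp only [e1, e3]
  rw [integral_finsetSum _ (fun i _ => i4 i),
    integral_finsetSum _ (fun i _ => i5 i), ← Finset.sum_neg_distrib]
  refine Finset.sum_congr rfl fun i _ => ?_
  rw [integral_sub (i1 i) (i2 i), integral_add (i3 i) (i2 i), e2 i]
  ring

/-- GLUE -/
theorem glue : GlueStmt := by
  intro n D N W χ u α hD hχ hcpt hW hsum hu hα hdb hcl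
  have h1 := glue_first hχ hW hsum hu hα hdb
  refine ⟨h1, ?_⟩
  have i1 : ∀ (i : Fin N) (j : Fin n) (φ : E n → ℂ), IsTest D φ →
      Integrable (fun z => (u i z * dbar j (cx (χ i)) z) * φ z) := by
    intro i j φ hφ
    have := integrable_mul_test' (hu i)
      (isTest_smooth_mul (contDiff_dbar (j := j) (contDiff_cx (hχ i))) hφ)
    refine this.congr (Eventually.of_forall fun z => ?_)
    simp only
    ring
  have i2 : ∀ (j : Fin n) (φ : E n → ℂ), IsTest D φ →
      Integrable (fun z => (∑ i, u i z * dbar j (cx (χ i)) z) * φ z) := by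
    intro j φ hφ
    simp only [Finset.sum_mul]
    exact integrable_finsetSum _ fun i _ => i1 i j φ hφ
  have key : ∀ (j : Fin n) (φ : E n → ℂ), IsTest D φ →
      ∫ z, (- ∑ i, u i z * dbar j (cx (χ i)) z) * φ z =
        (∫ z, (∑ i, (χ i z : ℂ) * u i z) * dbar j φ z) + ∫ z, α j z * φ z := by
    intro j φ hφ
    have h2 := h1 j φ hφ
    have e : ∀ z, (α j z + ∑ i, u i z * dbar j (cx (χ i)) z) * φ z =
        α j z * φ z + (∑ i, u i z * dbar j (cx (χ i)) z) * φ z := fun z => by ring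
    simp only [e] at h2
    rw [integral_add (integrable_mul_test' (hα j) hφ) (i2 j φ hφ)] at h2
    have e' : ∀ z, (- ∑ i, u i z * dbar j (cx (χ i)) z) * φ z =
      - ((∑ i, u i z * dbar j (cx (χ i)) z) * φ z) := fun z => by ring
    simp only [e']
    rw [integral_neg, h2]
    ring
  intro j k ψ hψ
  rw [key j _ (hψ.dbar k), key k _ (hψ.dbar j), hcl j k ψ hψ]
  congr 2
  funext z
  rw [dbar_dbar_comm (hψ.sm.contDiffAt.of_le (by norm_cast))]

end Pool.Agent.DK.H92
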